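import Pool.Agent.V11196.MA.Omega

/-! Metric analogs and quasimetrizable spaces: both parts of the question. -/

open V11196.MA

universe u v

namespace Pool.Agent.Results.MP_d44cd8_gt.Analogs

/-- (a) fails: there is a `T₀` space which has a metric analog (for every base point) and is not
quasimetrizable; (b) holds: every quasimetrizable `T₀` space has a metric analog for every base
point. -/
theorem result :
    (∃ (X : Type) (_ : TopologicalSpace X), T0Space X ∧ Nonempty X ∧
      (∀ x₀ : X, HasMetricAnalog.{0, v} X x₀) ∧ ¬ Quasimetrizable X) ∧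
    (∀ (X : Type u) [TopologicalSpace X] [T0Space X], Quasimetrizable X →
      ∀ x₀ : X, HasMetricAnalog.{u, v} X x₀) := by
  refine ⟨⟨W1, inferInstance, inferInstance, ?_, W1_analog, W1_not_quasi⟩, ?_⟩
  · obtain ⟨b, -⟩ := W1_bdd (Set.countable_empty (α := W1))
    exact ⟨b⟩
  · intro X _ _ h x₀
    exact hasMetricAnalog_of_quasi X h x₀

end Pool.Agent.Results.MP_d44cd8_gt.Analogs
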